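import Pool.Agent.Y333.TC.LevD
import Pool.Agent.H510R2.Div

/-! Project TC, job LEV: the level of distribution (job 1107 of helper675). -/

set_option autoImplicit false

namespace Pool.Agent.Y333.TC

open Finset Pool.Agent.Y675.TC

theorem t (hE : S_EXP) : S_LEV := by
  intro B Q hB hQ ε hε
  set δ : ℝ := ε / 9 with hδ
  have hδ0 : 0 < δ := by positivity
  obtain ⟨c₁, hc₁, hdiv⟩ := Pool.Agent.H510R2.divisor_bound δ hδ0
  set A : ℝ := 1 + 6 * B + (B : ℝ) ^ 2 with hA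
  have hA0 : 0 < A := by positivity
  set c₃ : ℝ := 1 + 1 / δ with hc₃
  have hc₃0 : 0 < c₃ := by positivity
  refine ⟨2 * c₁ ^ 3 * (c₁ * A ^ δ) * c₃ ^ 2, by positivity, ?_⟩
  intro M D hM hD
  have hD0 : 0 < D := by linarith
  set N : ℕ := ⌊D⌋₊ with hN
  have hND : (N : ℝ) ≤ D := Nat.floor_le hD0.le
  have hDδ : 1 ≤ D ^ δ := Real.one_le_rpow hD hδ0.le
  -- the three quantities
  set W : ℝ := (c₁ * D ^ δ) ^ 3 with hW
  set τ : ℝ := c₁ * A ^ δ * (D ^ δ) ^ 4 with hτ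
  have hW0 : 0 < W := by positivity
  have hτ0 : 0 < τ := by positivity
  have hH : HH N ≤ c₃ * D ^ δ := by
    refine (HH_le N).trans ?_
    have h1 : Real.log N ≤ Real.log D := by
      rcases Nat.eq_zero_or_pos N with h | h
      · rw [h, Nat.cast_zero, Real.log_zero]
        exact Real.log_nonneg hD
      · exact Real.log_le_log (by exact_mod_cast h) hND
    have h2 := Real.log_le_rpow_div hD0.le hδ0
    rw [hc₃]
    have : (1 + 1 / δ) * D ^ δ = D ^ δ + D ^ δ / δ := by ring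
    linarith
  have hW1 : ∀ q ∈ Icc 1 N, (7 : ℝ) ^ q.primeFactors.card ≤ W := by
    intro q hq
    rw [mem_Icc] at hq
    refine (seven_pow (by omega)).trans (pow_le_pow_left₀ (Nat.cast_nonneg _) ?_ 3)
    refine (hdiv q hq.1).trans (mul_le_mul_of_nonneg_left ?_ hc₁.le)
    exact Real.rpow_le_rpow (Nat.cast_nonneg _) ((Nat.cast_le.2 hq.2).trans hND) hδ0.le
  have hτ1 : ∀ J K : ℕ, J ≤ N → K ≤ N → (1 ≤ J ∨ 1 ≤ K) →
      (FF B K J).natAbs ≠ 0 ∧ ((FF B K J).natAbs.divisors.card : ℝ) ≤ τ := by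
    intro J K hJ hK h
    obtain ⟨h1, h2⟩ := FF_bounds hB hJ hK h
    refine ⟨h1, (hdiv _ (Nat.pos_of_ne_zero h1)).trans ?_⟩
    rw [hτ, mul_assoc]
    refine mul_le_mul_of_nonneg_left ?_ hc₁.le
    have h3 : ((FF B K J).natAbs : ℝ) ≤ A * D ^ 4 := by
      refine h2.trans ?_
      gcongr
    calc ((FF B K J).natAbs : ℝ) ^ δ ≤ (A * D ^ 4) ^ δ :=
          Real.rpow_le_rpow (Nat.cast_nonneg _) h3 hδ0.le
      _ = A ^ δ * (D ^ δ) ^ 4 := by
          rw [Real.mul_rpow hA0.le (by positivity), ← Real.rpow_natCast D 4,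
            ← Real.rpow_natCast (D ^ δ) 4, ← Real.rpow_mul hD0.le, ← Real.rpow_mul hD0.le,
            mul_comm δ]
  -- the error for each modulus
  have hsub : ∀ q ∈ Icc 1 N, Ico 1 q ⊆ Icc 1 N := by
    intro q hq J hJ
    rw [mem_Icc] at *
    rw [mem_Ico] at hJ
    omega
  have h1 : ∑ q ∈ (Icc 1 N).filter (fun q : ℕ => Squarefree q ∧ q.Coprime Q),
      |(((Om M).filter (fun i => q ∣ vv B Q i)).card : ℝ) -
        (M : ℝ) ^ 4 * ∏ p ∈ q.primeFactors, gd B p| ≤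
      ∑ q ∈ Icc 1 N, W * (
        (M : ℝ) ^ 2 * ∑ J ∈ Icc 1 N, ∑ K ∈ Icc 1 N,
          (Nat.gcd q (FF B K J).natAbs : ℝ) / (K * J) +
        (M : ℝ) ^ 3 * ∑ J ∈ Icc 1 N, (Nat.gcd q (FF B 0 J).natAbs : ℝ) / q / J +
        (M : ℝ) ^ 3 * ∑ K ∈ Icc 1 N, (Nat.gcd q (FF B K 0).natAbs : ℝ) / q / K) := by
    refine (sum_le_sum fun q hq => ?_).trans
      (sum_le_sum_of_subset_of_nonneg (filter_subset _ _) fun q _ _ => by positivity)
    obtain ⟨hq1, hq2, hq3⟩ := mem_filter.1 hq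
    refine (main_err2 hE B (by rw [mem_Icc] at hq1; omega) hq2 hq3).trans ?_
    refine mul_le_mul (hW1 q hq1) ?_ (by positivity) hW0.le
    have hs := hsub q hq1
    refine add_le_add (add_le_add ?_ ?_) ?_
    · refine mul_le_mul_of_nonneg_left ?_ (by positivity)
      refine (sum_le_sum fun J _ => sum_le_sum_of_subset_of_nonneg hs fun K _ _ => by positivity).trans
        (sum_le_sum_of_subset_of_nonneg hs fun J _ _ => sum_nonneg fun K _ => by positivity)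
    · refine mul_le_mul_of_nonneg_left ?_ (by positivity)
      exact sum_le_sum_of_subset_of_nonneg hs fun J _ _ => by positivity
    · refine mul_le_mul_of_nonneg_left ?_ (by positivity)
      exact sum_le_sum_of_subset_of_nonneg hs fun J _ _ => by positivity
  refine h1.trans ?_
  rw [← mul_sum, sum_add_distrib, sum_add_distrib, ← mul_sum, ← mul_sum, ← mul_sum]
  -- the three sums
  have hHdef : ∑ J ∈ Icc 1 N, 1 / (J : ℝ) = HH N := rfl
  have hH0 := HH_nonneg N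
  have s1 : ∑ q ∈ Icc 1 N, ∑ J ∈ Icc 1 N, ∑ K ∈ Icc 1 N,
      (Nat.gcd q (FF B K J).natAbs : ℝ) / (K * J) ≤ D * τ * (HH N * HH N) := by
    rw [sum_comm]
    have h2 : ∀ J ∈ Icc 1 N, ∑ q ∈ Icc 1 N, ∑ K ∈ Icc 1 N,
        (Nat.gcd q (FF B K J).natAbs : ℝ) / (K * J) ≤ ∑ K ∈ Icc 1 N, D * τ * (1 / J * (1 / K)) := by
      intro J hJ
      rw [sum_comm]
      refine sum_le_sum fun K hK => ?_
      rw [mem_Icc] at hJ hK
      obtain ⟨h3, h4⟩ := hτ1 J K hJ.2 hK.2 (Or.inl hJ.1)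
      rw [← sum_div]
      have h5 : ∑ q ∈ Icc 1 N, (Nat.gcd q (FF B K J).natAbs : ℝ) ≤ D * τ :=
        (sum_gcd N h3).trans (mul_le_mul hND h4 (Nat.cast_nonneg _) hD0.le)
      refine (div_le_div_of_nonneg_right h5 (by positivity)).trans (le_of_eq ?_)
      have : (J : ℝ) ≠ 0 := by exact_mod_cast (show J ≠ 0 by omega)
      have : (K : ℝ) ≠ 0 := by exact_mod_cast (show K ≠ 0 by omega)
      field_simp
    refine (sum_le_sum h2).trans (le_of_eq ?_)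
    rw [← hHdef, sum_mul_sum, mul_sum]
    exact sum_congr rfl fun J _ => by rw [mul_sum]
  have s2 : ∑ q ∈ Icc 1 N, ∑ J ∈ Icc 1 N, (Nat.gcd q (FF B 0 J).natAbs : ℝ) / q / J ≤
      τ * HH N * HH N := by
    rw [sum_comm, ← hHdef, mul_sum]
    refine sum_le_sum fun J hJ => ?_
    rw [mem_Icc] at hJ
    obtain ⟨h3, h4⟩ := hτ1 J 0 hJ.2 (Nat.zero_le _) (Or.inl hJ.1)
    rw [Nat.cast_zero] at h3 h4
    rw [← sum_div, hHdef, mul_one_div]
    refine div_le_div_of_nonneg_right ?_ (Nat.cast_nonneg _)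
    exact (sum_gcd_div N h3).trans (mul_le_mul_of_nonneg_right h4 hH0)
  have s3 : ∑ q ∈ Icc 1 N, ∑ K ∈ Icc 1 N, (Nat.gcd q (FF B K 0).natAbs : ℝ) / q / K ≤
      τ * HH N * HH N := by
    rw [sum_comm, ← hHdef, mul_sum]
    refine sum_le_sum fun J hJ => ?_
    rw [mem_Icc] at hJ
    obtain ⟨h3, h4⟩ := hτ1 0 J (Nat.zero_le _) hJ.2 (Or.inr hJ.1)
    rw [Nat.cast_zero] at h3 h4
    rw [← sum_div, hHdef, mul_one_div]
    refine div_le_div_of_nonneg_right ?_ (Nat.cast_nonneg _)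
    exact (sum_gcd_div N h3).trans (mul_le_mul_of_nonneg_right h4 hH0)
  have hM0 : (0 : ℝ) ≤ M := Nat.cast_nonneg _
  have hHH : HH N * HH N ≤ (c₃ * D ^ δ) * (c₃ * D ^ δ) := mul_le_mul hH hH hH0 (by positivity)
  have hpow : D ^ ε = (D ^ δ) ^ 9 := by
    rw [← Real.rpow_natCast (D ^ δ) 9, ← Real.rpow_mul hD0.le]
    congr 1
    rw [hδ]
    push_cast
    ring
  calc W * ((M : ℝ) ^ 2 * (∑ q ∈ Icc 1 N, ∑ J ∈ Icc 1 N, ∑ K ∈ Icc 1 N,
          (Nat.gcd q (FF B K J).natAbs : ℝ) / (K * J)) +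
        (M : ℝ) ^ 3 * (∑ q ∈ Icc 1 N, ∑ J ∈ Icc 1 N, (Nat.gcd q (FF B 0 J).natAbs : ℝ) / q / J) +
        (M : ℝ) ^ 3 * (∑ q ∈ Icc 1 N, ∑ K ∈ Icc 1 N, (Nat.gcd q (FF B K 0).natAbs : ℝ) / q / K))
      ≤ W * ((M : ℝ) ^ 2 * (D * τ * (HH N * HH N)) + (M : ℝ) ^ 3 * (τ * HH N * HH N) +
        (M : ℝ) ^ 3 * (τ * HH N * HH N)) := by gcongr
    _ = W * τ * (HH N * HH N) * ((M : ℝ) ^ 2 * D + 2 * (M : ℝ) ^ 3) := by ring
    _ ≤ W * τ * ((c₃ * D ^ δ) * (c₃ * D ^ δ)) * (2 * ((M : ℝ) ^ 3 + (M : ℝ) ^ 2 * D)) := by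
        have h5 : (M : ℝ) ^ 2 * D + 2 * (M : ℝ) ^ 3 ≤ 2 * ((M : ℝ) ^ 3 + (M : ℝ) ^ 2 * D) := by
          have : 0 ≤ (M : ℝ) ^ 2 * D := by positivity
          linarith
        gcongr
    _ = 2 * c₁ ^ 3 * (c₁ * A ^ δ) * c₃ ^ 2 * D ^ ε * ((M : ℝ) ^ 3 + (M : ℝ) ^ 2 * D) := by
        rw [hpow, hW, hτ]
        ring

end Pool.Agent.Y333.TC
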