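import Pool.Agent.Y675.TC.Stm

/-! Project TC, job LEV, part A: additive characters (job 1107 of helper675). -/

set_option autoImplicit false

namespace Pool.Agent.Y333.TC

open Finset Pool.Agent.Y675.TC

theorem ee_add (x y : ℝ) : ee (x + y) = ee x * ee y := by
  unfold ee
  rw [← Complex.exp_add]
  congr 1
  push_cast
  ring

theorem ee_zero : ee 0 = 1 := by
  unfold ee
  simp

theorem ee_norm (x : ℝ) : ‖ee x‖ = 1 := by
  unfold ee
  have h : (2 * (Real.pi : ℂ) * x * Complex.I) = ((2 * Real.pi * x : ℝ) : ℂ) * Complex.I := by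
    push_cast
    ring
  rw [h, Complex.norm_exp_ofReal_mul_I]

theorem ee_eq_one_iff (x : ℝ) : ee x = 1 ↔ ∃ n : ℤ, x = n := by
  unfold ee
  rw [Complex.exp_eq_one_iff]
  have hpi : (2 * Real.pi * Complex.I : ℂ) ≠ 0 := Complex.two_pi_I_ne_zero
  constructor
  · rintro ⟨n, hn⟩
    refine ⟨n, ?_⟩
    have h1 : (2 * Real.pi * Complex.I : ℂ) * x = (2 * Real.pi * Complex.I : ℂ) * n := by
      linear_combination hn
    exact_mod_cast mul_left_cancel₀ hpi h1
  · rintro ⟨n, rfl⟩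
    refine ⟨n, ?_⟩
    push_cast
    ring

theorem ee_nsmul (x : ℝ) (n : ℕ) : ee (n * x) = ee x ^ n := by
  induction n with
  | zero => simp [ee_zero]
  | succ n ih =>
    rw [pow_succ, ← ih, ← ee_add]
    congr 1
    push_cast
    ring

theorem orth {q : ℕ} (hq : 0 < q) (n : ℤ) :
    ∑ J ∈ range q, ee ((((J : ℤ) * n : ℤ) : ℝ) / q) = if (q : ℤ) ∣ n then (q : ℂ) else 0 := by
  have hq' : (q : ℝ) ≠ 0 := by positivity
  have h1 : ∀ J ∈ range q, ee ((((J : ℤ) * n : ℤ) : ℝ) / q) = ee ((n : ℝ) / q) ^ J := by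
    intro J _
    rw [← ee_nsmul]
    congr 1
    push_cast
    ring
  rw [sum_congr rfl h1]
  split_ifs with h
  · obtain ⟨m, rfl⟩ := h
    have h2 : ee (((q * m : ℤ) : ℝ) / q) = 1 := by
      rw [ee_eq_one_iff]
      refine ⟨m, ?_⟩
      push_cast
      field_simp
    rw [h2]
    simp
  · have h2 : ee ((n : ℝ) / q) ≠ 1 := by
      rw [Ne, ee_eq_one_iff]
      rintro ⟨m, hm⟩
      rw [div_eq_iff hq'] at hm
      exact h ⟨m, by exact_mod_cast hm.trans (mul_comm _ _)⟩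
    rw [geom_sum_eq h2, ← ee_nsmul]
    have h3 : ee ((q : ℝ) * ((n : ℝ) / q)) = 1 := by
      rw [ee_eq_one_iff]
      refine ⟨n, ?_⟩
      field_simp
    rw [h3, sub_self, zero_div]

/-- the linear exponential sum -/
noncomputable def TT (M q : ℕ) (J : ℤ) : ℂ := ∑ a ∈ range M, ee (((J * (a : ℤ) : ℤ) : ℝ) / q)

theorem TT_zero (M q : ℕ) : TT M q 0 = M := by
  unfold TT
  simp [ee_zero]

theorem TT_le (M q : ℕ) (J : ℤ) : ‖TT M q J‖ ≤ M := by
  unfold TT
  refine (norm_sum_le _ _).trans ?_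
  simp [ee_norm]

theorem ee_sub_one (x : ℝ) : ‖ee x - 1‖ = 2 * |Real.sin (Real.pi * x)| := by
  unfold ee
  have h : (2 * (Real.pi : ℂ) * x * Complex.I) = Complex.I * ((2 * Real.pi * x : ℝ) : ℂ) := by
    push_cast
    ring
  rw [h, Complex.norm_exp_I_mul_ofReal_sub_one, Real.norm_eq_abs, abs_mul, abs_two]
  congr 3
  ring

/-- lower bound of the sine -/
theorem sin_ge {q J : ℕ} (hJ : 1 ≤ J) (hJq : J < q) :
    1 ≤ (q : ℝ) / 2 * (1 / J + 1 / ((q : ℝ) - J)) * |Real.sin (Real.pi * (J / q))| := by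
  have hJ0 : (0 : ℝ) < J := by exact_mod_cast hJ
  have hJq' : (J : ℝ) < q := by exact_mod_cast hJq
  have hq0 : (0 : ℝ) < q := hJ0.trans hJq'
  have hqJ : (0 : ℝ) < q - J := by linarith
  have hpi := Real.pi_pos
  -- for both halves
  have key : ∀ t : ℝ, 0 ≤ t → t ≤ q / 2 → 2 * t / q ≤ Real.sin (Real.pi * (t / q)) := by
    intro t ht0 ht1
    have h1 := Real.mul_le_sin (x := Real.pi * (t / q)) (by positivity) (by
      rw [mul_div_assoc', div_le_div_iff₀ hq0 two_pos]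
      nlinarith)
    have h2 : 2 / Real.pi * (Real.pi * (t / q)) = 2 * t / q := by
      field_simp
    rwa [h2] at h1
  rcases le_total (J : ℝ) (q / 2) with h | h
  · have h1 := key J hJ0.le h
    have h2 := h1.trans (le_abs_self _)
    calc (1 : ℝ) = (q : ℝ) / 2 * (1 / J) * (2 * J / q) := by field_simp
      _ ≤ (q : ℝ) / 2 * (1 / J + 1 / ((q : ℝ) - J)) * (2 * J / q) := by
          have : 0 ≤ 1 / ((q : ℝ) - J) := by positivity
          gcongr
          linarith
      _ ≤ _ := by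
          have : 0 ≤ 1 / ((q : ℝ) - J) := by positivity
          gcongr
  · have h1 := key (q - J) hqJ.le (by linarith)
    have h3 : Real.sin (Real.pi * ((q - J) / q)) = Real.sin (Real.pi * (J / q)) := by
      have : Real.pi * ((q - J) / q) = Real.pi - Real.pi * (J / q) := by field_simp
      rw [this, Real.sin_pi_sub]
    rw [h3] at h1
    have h2 := h1.trans (le_abs_self _)
    calc (1 : ℝ) = (q : ℝ) / 2 * (1 / ((q : ℝ) - J)) * (2 * (q - J) / q) := by field_simp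
      _ ≤ (q : ℝ) / 2 * (1 / J + 1 / ((q : ℝ) - J)) * (2 * (q - J) / q) := by
          have : 0 ≤ 1 / (J : ℝ) := by positivity
          gcongr
          linarith
      _ ≤ _ := by
          have : 0 ≤ 1 / ((q : ℝ) - J) := by positivity
          gcongr

theorem TT_bd (M : ℕ) {q J : ℕ} (hJ : 1 ≤ J) (hJq : J < q) :
    ‖TT M q (-(J : ℤ))‖ ≤ (q : ℝ) / 2 * (1 / J + 1 / ((q : ℝ) - J)) := by
  have hJ0 : (0 : ℝ) < J := by exact_mod_cast hJ
  have hJq' : (J : ℝ) < q := by exact_mod_cast hJq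
  have hq0 : (0 : ℝ) < q := hJ0.trans hJq'
  have hs := sin_ge hJ hJq
  set w : ℝ := (q : ℝ) / 2 * (1 / J + 1 / ((q : ℝ) - J)) with hw
  have hqJ : (0 : ℝ) < q - J := by linarith
  have hw0 : 0 < w := by positivity
  set z : ℂ := ee (-(J : ℝ) / q) with hz
  have h1 : TT M q (-(J : ℤ)) = ∑ a ∈ range M, z ^ a := by
    unfold TT
    refine sum_congr rfl fun a _ => ?_
    rw [hz, ← ee_nsmul]
    congr 1
    push_cast
    ring
  have h2 : ‖z - 1‖ = 2 * |Real.sin (Real.pi * (J / q))| := by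
    rw [hz, ee_sub_one]
    congr 1
    have : Real.pi * (-(J : ℝ) / q) = -(Real.pi * (J / q)) := by ring
    rw [this, Real.sin_neg, abs_neg]
  have h3 : 2 ≤ w * ‖z - 1‖ := by
    rw [h2]
    nlinarith
  have h4 : (∑ a ∈ range M, z ^ a) * (z - 1) = z ^ M - 1 := geom_sum_mul z M
  have h5 : ‖z ^ M - 1‖ ≤ 2 := by
    refine (norm_sub_le _ _).trans ?_
    rw [norm_pow, hz, ee_norm, one_pow, norm_one]
    norm_num
  rw [h1]
  have h6 : ‖∑ a ∈ range M, z ^ a‖ * ‖z - 1‖ ≤ w * ‖z - 1‖ := by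
    rw [← norm_mul, h4]
    exact h5.trans h3
  have h7 : 0 < ‖z - 1‖ := by
    by_contra hcon
    push Not at hcon
    have : w * ‖z - 1‖ ≤ 0 := mul_nonpos_of_nonneg_of_nonpos hw0.le hcon
    linarith
  exact le_of_mul_le_mul_right h6 h7

end Pool.Agent.Y333.TC
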