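import Pool.Agent.Y333.TC.LevA

/-! Project TC, job LEV, part B: the Fourier identity (job 1107 of helper675). -/

set_option autoImplicit false

namespace Pool.Agent.Y333.TC

open Finset Pool.Agent.Y675.TC

/-- congruent arguments -/
theorem FF_modEq (B : ℕ) {q r r' s s' : ℤ} (h1 : r ≡ r' [ZMOD q]) (h2 : s ≡ s' [ZMOD q]) :
    FF B r s ≡ FF B r' s' [ZMOD q] := by
  unfold FF
  exact ((h2.pow 4).add (((Int.ModEq.refl _).mul (h1.pow 2)).mul (h2.pow 2))).add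
    ((Int.ModEq.refl _).mul (h1.pow 4))

theorem FF_dvd_iff (B : ℕ) {q r r' s s' : ℤ} (h1 : r ≡ r' [ZMOD q]) (h2 : s ≡ s' [ZMOD q]) :
    q ∣ FF B r s ↔ q ∣ FF B r' s' := by
  rw [← Int.modEq_zero_iff_dvd, ← Int.modEq_zero_iff_dvd]
  exact ⟨fun h => (FF_modEq B h1 h2).symm.trans h, fun h => (FF_modEq B h1 h2).trans h⟩

/-- the sum over a residue class -/
theorem sum_res {q : ℕ} (hq : 0 < q) {c c' : ℤ} (hc : c * c' ≡ 1 [ZMOD q]) (m : ℤ) (h : ℕ → ℂ)
    (w : ℂ) (hw : ∀ x : ℕ, (x : ℤ) ≡ c * m [ZMOD q] → h x = w) :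
    ∑ x ∈ range q, h x * (if (q : ℤ) ∣ c' * x - m then (q : ℂ) else 0) = w * q := by
  have hq0 : (q : ℤ) ≠ 0 := by exact_mod_cast hq.ne'
  have key : ∀ x : ℤ, (q : ℤ) ∣ c' * x - m ↔ x ≡ c * m [ZMOD q] := by
    intro x
    rw [← Int.modEq_iff_dvd]
    constructor
    · intro h1
      have h2 : c * m ≡ c * (c' * x) [ZMOD q] := h1.mul_left c
      have h3 : c * (c' * x) ≡ 1 * x [ZMOD q] := by
        rw [← mul_assoc]
        exact hc.mul_right x
      rw [one_mul] at h3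
      exact (h2.trans h3).symm
    · intro h1
      have h2 : c' * x ≡ c' * (c * m) [ZMOD q] := h1.mul_left c'
      have h3 : c' * (c * m) ≡ 1 * m [ZMOD q] := by
        have : c' * (c * m) = c * c' * m := by ring
        rw [this]
        exact hc.mul_right m
      rw [one_mul] at h3
      exact (h2.trans h3).symm
  set x₀ : ℕ := ((c * m) % q).toNat with hx₀
  have hx₀' : (x₀ : ℤ) = (c * m) % q := Int.toNat_of_nonneg (Int.emod_nonneg _ hq0)
  have hlt : x₀ < q := by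
    have h1 : (c * m) % (q : ℤ) < q := Int.emod_lt_of_pos _ (by exact_mod_cast hq)
    rw [← hx₀'] at h1
    exact_mod_cast h1
  have hx₀m : (x₀ : ℤ) ≡ c * m [ZMOD q] := by
    rw [hx₀']
    exact Int.mod_modEq _ _
  rw [sum_eq_single x₀]
  · rw [if_pos ((key _).2 hx₀m), hw x₀ hx₀m]
  · intro x hx hne
    rw [if_neg, mul_zero]
    intro h1
    apply hne
    have h2 : (x : ℤ) ≡ x₀ [ZMOD q] := ((key x).1 h1).trans hx₀m.symm
    have h3 : x ≡ x₀ [MOD q] := (Int.natCast_modEq_iff).1 h2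
    exact Nat.ModEq.eq_of_lt_of_lt h3 (mem_range.1 hx) hlt
  · intro h
    exact absurd (mem_range.2 hlt) h

/-- the identity for a single quadruple -/
theorem single (B : ℕ) {q : ℕ} (hq : 0 < q) {c c' : ℤ} (hc : c * c' ≡ 1 [ZMOD q]) (m m' : ℤ) :
    ∑ J ∈ range q, ∑ K ∈ range q, AA B q (J * c') (K * c') *
      ee (-(((K : ℤ) * c' : ℤ) : ℝ) / q) *
      (ee (((-(J : ℤ) * m : ℤ) : ℝ) / q) * ee (((-(K : ℤ) * m' : ℤ) : ℝ) / q)) =
    (if (q : ℤ) ∣ FF B (c * m) (1 + c * m') then 1 else 0) * (q : ℂ) ^ 2 := by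
  classical
  -- the sum over `y`
  have hy : ∀ x : ℕ, (x : ℤ) ≡ c * m [ZMOD q] →
      ∑ y ∈ range q, (if (q : ℤ) ∣ FF B x y then (1 : ℂ) else 0) *
        (if (q : ℤ) ∣ c' * y - (m' + c') then (q : ℂ) else 0) =
      (if (q : ℤ) ∣ FF B (c * m) (1 + c * m') then 1 else 0) * q := by
    intro x hx
    refine sum_res hq hc (m' + c') _ _ fun y hy => ?_
    have h1 : (y : ℤ) ≡ 1 + c * m' [ZMOD q] := by
      refine hy.trans ?_
      have : c * (m' + c') = c * c' + c * m' := by ring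
      rw [this]
      exact hc.add_right _
    simp only [FF_dvd_iff B hx h1]
  have hx := sum_res hq hc m (fun x => ∑ y ∈ range q, (if (q : ℤ) ∣ FF B x y then (1 : ℂ) else 0) *
        (if (q : ℤ) ∣ c' * y - (m' + c') then (q : ℂ) else 0)) _ hy
  rw [sq, ← mul_assoc, ← hx]
  have h1 : ∀ x ∈ range q, (∑ y ∈ range q, (if (q : ℤ) ∣ FF B x y then (1 : ℂ) else 0) *
        (if (q : ℤ) ∣ c' * y - (m' + c') then (q : ℂ) else 0)) *
        (if (q : ℤ) ∣ c' * x - m then (q : ℂ) else 0) =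
      ∑ y ∈ range q, ∑ J ∈ range q, ∑ K ∈ range q, (if (q : ℤ) ∣ FF B x y then (1 : ℂ) else 0) *
        (ee ((((J : ℤ) * (c' * x - m) : ℤ) : ℝ) / q) *
          ee ((((K : ℤ) * (c' * y - (m' + c')) : ℤ) : ℝ) / q)) := by
    intro x _
    rw [sum_mul]
    refine sum_congr rfl fun y _ => ?_
    rw [← orth hq, ← orth hq, mul_assoc, mul_comm (∑ J ∈ range q, _) (∑ J ∈ range q, _), sum_mul_sum,
      mul_sum]
    refine sum_congr rfl fun J _ => ?_
    rw [mul_sum]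
  rw [sum_congr rfl h1]
  have h2 : ∀ J ∈ range q, ∀ K ∈ range q, AA B q (J * c') (K * c') *
      ee (-(((K : ℤ) * c' : ℤ) : ℝ) / q) *
      (ee (((-(J : ℤ) * m : ℤ) : ℝ) / q) * ee (((-(K : ℤ) * m' : ℤ) : ℝ) / q)) =
      ∑ x ∈ range q, ∑ y ∈ range q, (if (q : ℤ) ∣ FF B x y then (1 : ℂ) else 0) *
        (ee ((((J : ℤ) * (c' * x - m) : ℤ) : ℝ) / q) *
          ee ((((K : ℤ) * (c' * y - (m' + c')) : ℤ) : ℝ) / q)) := by
    intro J _ K _
    unfold AA
    rw [sum_mul, sum_mul]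
    refine sum_congr rfl fun x _ => ?_
    rw [sum_mul, sum_mul]
    refine sum_congr rfl fun y _ => ?_
    split_ifs with h
    · rw [one_mul, ← ee_add, ← ee_add, ← ee_add, ← ee_add]
      congr 1
      push_cast
      ring
    · rw [zero_mul, zero_mul, zero_mul]
  rw [sum_congr rfl fun J hJ => sum_congr rfl (h2 J hJ)]
  -- exchange of the sums
  calc ∑ J ∈ range q, ∑ K ∈ range q, ∑ x ∈ range q, ∑ y ∈ range q, _
      = ∑ J ∈ range q, ∑ x ∈ range q, ∑ K ∈ range q, ∑ y ∈ range q, _ :=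
        sum_congr rfl fun J _ => sum_comm
    _ = ∑ x ∈ range q, ∑ J ∈ range q, ∑ K ∈ range q, ∑ y ∈ range q, _ := sum_comm
    _ = ∑ x ∈ range q, ∑ y ∈ range q, ∑ J ∈ range q, ∑ K ∈ range q, _ := by
        refine sum_congr rfl fun x _ => ?_
        exact (sum_congr rfl fun J _ => sum_comm).trans sum_comm

end Pool.Agent.Y333.TC
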