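import Pool.Agent.Y333.TC.LevB

/-! Project TC, job LEV, part C: the error for a single modulus (job 1107 of helper675). -/

set_option autoImplicit false

namespace Pool.Agent.Y333.TC

open Finset Pool.Agent.Y675.TC

theorem TT_sq (M q : ℕ) (J K : ℤ) : TT M q J ^ 2 * TT M q K ^ 2 =
    ∑ i ∈ Om M, ee (((J * ((i.1 + i.2.1 : ℕ) : ℤ) : ℤ) : ℝ) / q) *
      ee (((K * ((i.2.2.1 + i.2.2.2 : ℕ) : ℤ) : ℤ) : ℝ) / q) := by
  have h1 : ∀ i : ℕ × ℕ × ℕ × ℕ, ee (((J * ((i.1 + i.2.1 : ℕ) : ℤ) : ℤ) : ℝ) / q) *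
      ee (((K * ((i.2.2.1 + i.2.2.2 : ℕ) : ℤ) : ℤ) : ℝ) / q) =
      ee (((J * (i.1 : ℤ) : ℤ) : ℝ) / q) * (ee (((J * (i.2.1 : ℤ) : ℤ) : ℝ) / q) *
        (ee (((K * (i.2.2.1 : ℤ) : ℤ) : ℝ) / q) * ee (((K * (i.2.2.2 : ℤ) : ℤ) : ℝ) / q))) := by
    intro i
    rw [← ee_add, ← ee_add, ← ee_add, ← ee_add]
    congr 1
    push_cast
    ring
  unfold Om
  rw [sum_congr rfl fun i _ => h1 i, sum_product]
  simp only [sum_product, ← mul_sum, ← sum_mul]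
  unfold TT
  ring

theorem ident (B Q M : ℕ) {q : ℕ} (hq : 0 < q) {c' : ℤ} (hc : (Q : ℤ) * c' ≡ 1 [ZMOD q]) :
    (((Om M).filter (fun i => q ∣ vv B Q i)).card : ℂ) * (q : ℂ) ^ 2 =
      ∑ J ∈ range q, ∑ K ∈ range q, AA B q (J * c') (K * c') *
        ee (-(((K : ℤ) * c' : ℤ) : ℝ) / q) *
        (TT M q (-(J : ℤ)) ^ 2 * TT M q (-(K : ℤ)) ^ 2) := by
  classical
  have h1 : (((Om M).filter (fun i => q ∣ vv B Q i)).card : ℂ) * (q : ℂ) ^ 2 =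
      ∑ i ∈ Om M, ∑ J ∈ range q, ∑ K ∈ range q, AA B q (J * c') (K * c') *
      ee (-(((K : ℤ) * c' : ℤ) : ℝ) / q) *
      (ee (((-(J : ℤ) * ((i.1 + i.2.1 : ℕ) : ℤ) : ℤ) : ℝ) / q) *
        ee (((-(K : ℤ) * ((i.2.2.1 + i.2.2.2 : ℕ) : ℤ) : ℤ) : ℝ) / q)) := by
    rw [Finset.natCast_card_filter, sum_mul]
    refine sum_congr rfl fun i _ => ?_
    rw [single B hq hc]
    congr 1
    have h2 : q ∣ vv B Q i ↔ (q : ℤ) ∣ FF B ((Q : ℤ) * ((i.1 + i.2.1 : ℕ) : ℤ))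
        (1 + (Q : ℤ) * ((i.2.2.1 + i.2.2.2 : ℕ) : ℤ)) := by
      unfold vv
      rw [← Int.natCast_dvd]
      push_cast
      rfl
    simp only [h2]
  rw [h1, sum_comm]
  refine sum_congr rfl fun J _ => ?_
  rw [sum_comm]
  refine sum_congr rfl fun K _ => ?_
  rw [← mul_sum, ← TT_sq]

/-- the bound of a complete sum after the change of variables -/
theorem AA_bd (hE : S_EXP) (B : ℕ) {q Q : ℕ} (hs : Squarefree q) {c' : ℤ}
    (hc : (Q : ℤ) * c' ≡ 1 [ZMOD q]) (J K : ℕ) :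
    ‖AA B q (J * c') (K * c')‖ ≤ 7 ^ q.primeFactors.card * (Nat.gcd q (FF B K J).natAbs : ℝ) := by
  refine ((hE B q hs).2 _ _).trans ?_
  have h1 : FF B (K * c') (J * c') = c' ^ 4 * FF B K J := by
    unfold FF
    ring
  have h2 : Nat.Coprime q (c' ^ 4).natAbs := by
    rw [Int.natAbs_pow]
    refine Nat.Coprime.pow_right 4 ?_
    obtain ⟨t, ht⟩ := hc.dvd
    have h3 : IsCoprime (q : ℤ) c' := ⟨t, Q, by linear_combination -ht⟩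
    have h4 := Int.isCoprime_iff_gcd_eq_one.1 h3
    rw [Int.gcd, Int.natAbs_natCast] at h4
    exact h4
  rw [h1, Int.natAbs_mul, Nat.Coprime.gcd_mul_left_cancel_right _ h2.symm]

/-- the size of the linear sum -/
noncomputable def wt (q J : ℕ) : ℝ := (q : ℝ) / 2 * (1 / J + 1 / ((q : ℝ) - J))

theorem main_err (hE : S_EXP) (B : ℕ) {q Q M : ℕ} (hq : 0 < q) (hs : Squarefree q)
    (hQ : q.Coprime Q) :
    |(((Om M).filter (fun i => q ∣ vv B Q i)).card : ℝ) -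
        (M : ℝ) ^ 4 * ∏ p ∈ q.primeFactors, gd B p| * (q : ℝ) ^ 2 ≤
      7 ^ q.primeFactors.card * (
        (M : ℝ) ^ 2 * ∑ J ∈ Ico 1 q, ∑ K ∈ Ico 1 q, (Nat.gcd q (FF B K J).natAbs : ℝ) * wt q J * wt q K +
        (M : ℝ) ^ 3 * ∑ J ∈ Ico 1 q, (Nat.gcd q (FF B 0 J).natAbs : ℝ) * wt q J +
        (M : ℝ) ^ 3 * ∑ K ∈ Ico 1 q, (Nat.gcd q (FF B K 0).natAbs : ℝ) * wt q K) := by
  obtain ⟨c', hc⟩ : ∃ c' : ℤ, (Q : ℤ) * c' ≡ 1 [ZMOD q] := by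
    have h1 := Int.gcd_eq_gcd_ab Q q
    have h2 : Int.gcd (Q : ℤ) q = 1 := by
      rw [Int.gcd_natCast_natCast]
      exact hQ.symm
    rw [h2] at h1
    refine ⟨Int.gcdA Q q, ?_⟩
    rw [Int.modEq_iff_dvd]
    refine ⟨Int.gcdB Q q, ?_⟩
    push_cast at h1
    linear_combination h1
  have hq0 : (0 : ℝ) < q := by exact_mod_cast hq
  obtain ⟨hA0, -⟩ := hE B q hs
  -- the bounds of the linear sums
  have hwt : ∀ J ∈ Ico 1 q, ‖TT M q (-(J : ℤ))‖ ^ 2 ≤ M * wt q J := by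
    intro J hJ
    rw [mem_Ico] at hJ
    rw [sq]
    exact mul_le_mul (TT_le M q _) (TT_bd M hJ.1 hJ.2) (norm_nonneg _) (Nat.cast_nonneg _)
  have hwt0 : ∀ J ∈ Ico 1 q, 0 ≤ wt q J := by
    intro J hJ
    rw [mem_Ico] at hJ
    have h1 : (0 : ℝ) < J := by exact_mod_cast hJ.1
    have h2 : (J : ℝ) < q := by exact_mod_cast hJ.2
    have h3 : (0 : ℝ) < q - J := by linarith
    unfold wt
    positivity
  -- the terms
  set t : ℕ → ℕ → ℂ := fun J K => AA B q (J * c') (K * c') *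
        ee (-(((K : ℤ) * c' : ℤ) : ℝ) / q) *
        (TT M q (-(J : ℤ)) ^ 2 * TT M q (-(K : ℤ)) ^ 2) with ht
  have hid := ident B Q M hq hc
  have ht00 : t 0 0 = ((((M : ℝ) ^ 4 * ∏ p ∈ q.primeFactors, gd B p) * (q : ℝ) ^ 2 : ℝ) : ℂ) := by
    simp only [ht]
    simp only [Nat.cast_zero, zero_mul, neg_zero, Int.cast_zero, zero_div, ee_zero, TT_zero]
    rw [hA0]
    push_cast
    ring
  have hsplit : ∑ J ∈ range q, ∑ K ∈ range q, t J K = t 0 0 + (∑ K ∈ Ico 1 q, t 0 K +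
      (∑ J ∈ Ico 1 q, t J 0 + ∑ J ∈ Ico 1 q, ∑ K ∈ Ico 1 q, t J K)) := by
    rw [sum_range_eq_add_Ico _ hq, sum_range_eq_add_Ico _ hq]
    rw [sum_congr rfl fun J _ => sum_range_eq_add_Ico (t J) hq, sum_add_distrib]
    ring
  have htb : ∀ J K : ℕ, ‖t J K‖ ≤ 7 ^ q.primeFactors.card * (Nat.gcd q (FF B K J).natAbs : ℝ) *
      (‖TT M q (-(J : ℤ))‖ ^ 2 * ‖TT M q (-(K : ℤ))‖ ^ 2) := by
    intro J K
    simp only [ht]
    rw [norm_mul, norm_mul, norm_mul, ee_norm, mul_one, norm_pow, norm_pow]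
    exact mul_le_mul_of_nonneg_right (AA_bd hE B hs hc J K) (by positivity)
  have hdiff : (((((Om M).filter (fun i => q ∣ vv B Q i)).card : ℝ) -
        (M : ℝ) ^ 4 * ∏ p ∈ q.primeFactors, gd B p) * (q : ℝ) ^ 2 : ℝ) =
      (∑ K ∈ Ico 1 q, t 0 K + (∑ J ∈ Ico 1 q, t J 0 + ∑ J ∈ Ico 1 q, ∑ K ∈ Ico 1 q, t J K)) := by
    rw [hsplit, ht00] at hid
    rw [sub_mul]
    push_cast at hid ⊢
    rw [hid]
    ring
  have hL : |(((Om M).filter (fun i => q ∣ vv B Q i)).card : ℝ) -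
        (M : ℝ) ^ 4 * ∏ p ∈ q.primeFactors, gd B p| * (q : ℝ) ^ 2 =
      ‖∑ K ∈ Ico 1 q, t 0 K + (∑ J ∈ Ico 1 q, t J 0 + ∑ J ∈ Ico 1 q, ∑ K ∈ Ico 1 q, t J K)‖ := by
    rw [← hdiff, Complex.norm_real, Real.norm_eq_abs, abs_mul, abs_of_pos (pow_pos hq0 2)]
  rw [hL]
  have hT0 : ‖TT M q (-((0 : ℕ) : ℤ))‖ ^ 2 = (M : ℝ) ^ 2 := by
    rw [Nat.cast_zero, neg_zero, TT_zero, Complex.norm_natCast]
  have b1 : ‖∑ K ∈ Ico 1 q, t 0 K‖ ≤ 7 ^ q.primeFactors.card *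
      ((M : ℝ) ^ 3 * ∑ K ∈ Ico 1 q, (Nat.gcd q (FF B K 0).natAbs : ℝ) * wt q K) := by
    rw [mul_sum, mul_sum]
    refine (norm_sum_le _ _).trans (sum_le_sum fun K hK => (htb 0 K).trans ?_)
    rw [hT0, Nat.cast_zero]
    have h1 := mul_le_mul_of_nonneg_left (hwt K hK) (a := 7 ^ q.primeFactors.card *
      (Nat.gcd q (FF B K 0).natAbs : ℝ) * (M : ℝ) ^ 2) (by positivity)
    linarith
  have b2 : ‖∑ J ∈ Ico 1 q, t J 0‖ ≤ 7 ^ q.primeFactors.card *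
      ((M : ℝ) ^ 3 * ∑ J ∈ Ico 1 q, (Nat.gcd q (FF B 0 J).natAbs : ℝ) * wt q J) := by
    rw [mul_sum, mul_sum]
    refine (norm_sum_le _ _).trans (sum_le_sum fun J hJ => (htb J 0).trans ?_)
    rw [hT0, Nat.cast_zero]
    have h1 := mul_le_mul_of_nonneg_left (hwt J hJ) (a := 7 ^ q.primeFactors.card *
      (Nat.gcd q (FF B 0 J).natAbs : ℝ) * (M : ℝ) ^ 2) (by positivity)
    linarith
  have b3 : ‖∑ J ∈ Ico 1 q, ∑ K ∈ Ico 1 q, t J K‖ ≤ 7 ^ q.primeFactors.card *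
      ((M : ℝ) ^ 2 * ∑ J ∈ Ico 1 q, ∑ K ∈ Ico 1 q,
        (Nat.gcd q (FF B K J).natAbs : ℝ) * wt q J * wt q K) := by
    rw [mul_sum, mul_sum]
    refine (norm_sum_le _ _).trans (sum_le_sum fun J hJ => ?_)
    rw [mul_sum, mul_sum]
    refine (norm_sum_le _ _).trans (sum_le_sum fun K hK => (htb J K).trans ?_)
    have h2 : ‖TT M q (-(J : ℤ))‖ ^ 2 * ‖TT M q (-(K : ℤ))‖ ^ 2 ≤ (M * wt q J) * (M * wt q K) :=
      mul_le_mul (hwt J hJ) (hwt K hK) (by positivity)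
        (mul_nonneg (Nat.cast_nonneg _) (hwt0 J hJ))
    have h1 := mul_le_mul_of_nonneg_left h2 (a := 7 ^ q.primeFactors.card *
      (Nat.gcd q (FF B K J).natAbs : ℝ)) (by positivity)
    linarith
  refine (norm_add_le _ _).trans ?_
  have h3 := norm_add_le (∑ J ∈ Ico 1 q, t J 0) (∑ J ∈ Ico 1 q, ∑ K ∈ Ico 1 q, t J K)
  linarith

end Pool.Agent.Y333.TC
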