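import Pool.Agent.Y333.TC.LevC

/-! Project TC, job LEV, part D: elementary sums (job 1107 of helper675). -/

set_option autoImplicit false

namespace Pool.Agent.Y333.TC

open Finset Pool.Agent.Y675.TC

/-- symmetrization -/
theorem sum_wt {q : ℕ} (h : ℕ → ℝ) (hh : ∀ J ∈ Ico 1 q, h (q - J) = h J) :
    ∑ J ∈ Ico 1 q, h J * wt q J = q * ∑ J ∈ Ico 1 q, h J / J := by
  have h1 : ∑ J ∈ Ico 1 q, h J * (1 / ((q : ℝ) - J)) = ∑ J ∈ Ico 1 q, h J * (1 / J) := by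
    have h2 := Finset.sum_Ico_reflect (fun J => h J * (1 / (J : ℝ))) 1 (m := q) (n := q)
      (Nat.le_succ q)
    rw [Nat.add_sub_cancel_left, Nat.add_sub_cancel] at h2
    rw [← h2]
    refine sum_congr rfl fun J hJ => ?_
    rw [hh J hJ, Nat.cast_sub (mem_Ico.1 hJ).2.le]
  have h3 : ∀ J ∈ Ico 1 q, h J * wt q J = (q : ℝ) / 2 * (h J * (1 / J)) +
      (q : ℝ) / 2 * (h J * (1 / ((q : ℝ) - J))) := by
    intro J _
    unfold wt
    ring
  rw [sum_congr rfl h3, sum_add_distrib, ← mul_sum, ← mul_sum, h1]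
  have h4 : ∑ J ∈ Ico 1 q, h J / (J : ℝ) = ∑ J ∈ Ico 1 q, h J * (1 / J) :=
    sum_congr rfl fun J _ => by ring
  rw [h4]
  ring

theorem gcd_congr {q : ℕ} {a b : ℤ} (h : a ≡ b [ZMOD q]) :
    Nat.gcd q a.natAbs = Nat.gcd q b.natAbs := by
  have key : ∀ {a b : ℤ}, a ≡ b [ZMOD q] → Nat.gcd q a.natAbs ∣ Nat.gcd q b.natAbs := by
    intro a b h
    refine Nat.dvd_gcd (Nat.gcd_dvd_left _ _) ?_
    rw [← Int.natCast_dvd]
    have h1 : ((Nat.gcd q a.natAbs : ℕ) : ℤ) ∣ a :=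
      Int.natCast_dvd.2 (Nat.gcd_dvd_right _ _)
    have h2 : ((Nat.gcd q a.natAbs : ℕ) : ℤ) ∣ q :=
      Int.natCast_dvd_natCast.2 (Nat.gcd_dvd_left _ _)
    have h3 : ((Nat.gcd q a.natAbs : ℕ) : ℤ) ∣ b - a := h2.trans h.dvd
    have := dvd_add h3 h1
    rwa [sub_add_cancel] at this
  exact Nat.dvd_antisymm (key h) (key h.symm)

theorem gcd_sub_right (B : ℕ) {q J : ℕ} (hJ : J ≤ q) (K : ℤ) :
    Nat.gcd q (FF B K ((q - J : ℕ) : ℤ)).natAbs = Nat.gcd q (FF B K J).natAbs := by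
  apply gcd_congr
  have h1 : ((q - J : ℕ) : ℤ) ≡ -J [ZMOD q] := by
    rw [Nat.cast_sub hJ]
    exact (Int.modEq_iff_dvd.2 ⟨1, by ring⟩ : -(J : ℤ) ≡ q - J [ZMOD q]).symm
  refine (FF_modEq B (Int.ModEq.refl K) h1).trans ?_
  have : FF B K (-J) = FF B K J := by unfold FF; ring
  rw [this]

theorem gcd_sub_left (B : ℕ) {q K : ℕ} (hK : K ≤ q) (J : ℤ) :
    Nat.gcd q (FF B ((q - K : ℕ) : ℤ) J).natAbs = Nat.gcd q (FF B K J).natAbs := by
  apply gcd_congr
  have h1 : ((q - K : ℕ) : ℤ) ≡ -K [ZMOD q] := by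
    rw [Nat.cast_sub hK]
    exact (Int.modEq_iff_dvd.2 ⟨1, by ring⟩ : -(K : ℤ) ≡ q - K [ZMOD q]).symm
  refine (FF_modEq B h1 (Int.ModEq.refl J)).trans ?_
  have : FF B (-K) J = FF B K J := by unfold FF; ring
  rw [this]

theorem main_err2 (hE : S_EXP) (B : ℕ) {q Q M : ℕ} (hq : 0 < q) (hs : Squarefree q)
    (hQ : q.Coprime Q) :
    |(((Om M).filter (fun i => q ∣ vv B Q i)).card : ℝ) -
        (M : ℝ) ^ 4 * ∏ p ∈ q.primeFactors, gd B p| ≤
      7 ^ q.primeFactors.card * (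
        (M : ℝ) ^ 2 * ∑ J ∈ Ico 1 q, ∑ K ∈ Ico 1 q,
          (Nat.gcd q (FF B K J).natAbs : ℝ) / (K * J) +
        (M : ℝ) ^ 3 * ∑ J ∈ Ico 1 q, (Nat.gcd q (FF B 0 J).natAbs : ℝ) / q / J +
        (M : ℝ) ^ 3 * ∑ K ∈ Ico 1 q, (Nat.gcd q (FF B K 0).natAbs : ℝ) / q / K) := by
  have hq0 : (0 : ℝ) < q := by exact_mod_cast hq
  have h1 := main_err hE B (M := M) hq hs hQ
  have e1 : ∑ J ∈ Ico 1 q, (Nat.gcd q (FF B 0 J).natAbs : ℝ) * wt q J =
      (q : ℝ) ^ 2 * ∑ J ∈ Ico 1 q, (Nat.gcd q (FF B 0 J).natAbs : ℝ) / q / J := by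
    rw [sum_wt (fun J => (Nat.gcd q (FF B 0 J).natAbs : ℝ)) (fun J hJ => by
      rw [gcd_sub_right B (mem_Ico.1 hJ).2.le]), mul_sum, mul_sum]
    refine sum_congr rfl fun J _ => ?_
    field_simp
  have e2 : ∑ K ∈ Ico 1 q, (Nat.gcd q (FF B K 0).natAbs : ℝ) * wt q K =
      (q : ℝ) ^ 2 * ∑ K ∈ Ico 1 q, (Nat.gcd q (FF B K 0).natAbs : ℝ) / q / K := by
    rw [sum_wt (fun K => (Nat.gcd q (FF B K 0).natAbs : ℝ)) (fun K hK => by
      rw [gcd_sub_left B (mem_Ico.1 hK).2.le]), mul_sum, mul_sum]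
    refine sum_congr rfl fun J _ => ?_
    field_simp
  have e3 : ∑ J ∈ Ico 1 q, ∑ K ∈ Ico 1 q, (Nat.gcd q (FF B K J).natAbs : ℝ) * wt q J * wt q K =
      (q : ℝ) ^ 2 * ∑ J ∈ Ico 1 q, ∑ K ∈ Ico 1 q,
          (Nat.gcd q (FF B K J).natAbs : ℝ) / (K * J) := by
    have e4 : ∀ J ∈ Ico 1 q, ∑ K ∈ Ico 1 q, (Nat.gcd q (FF B K J).natAbs : ℝ) * wt q J * wt q K =
        (q * ∑ K ∈ Ico 1 q, (Nat.gcd q (FF B K J).natAbs : ℝ) / K) * wt q J := by
      intro J _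
      rw [← sum_wt (fun K => (Nat.gcd q (FF B K J).natAbs : ℝ)) (fun K hK => by
        rw [gcd_sub_left B (mem_Ico.1 hK).2.le]), sum_mul]
      exact sum_congr rfl fun K _ => by ring
    rw [sum_congr rfl e4, sum_wt (fun J => (q * ∑ K ∈ Ico 1 q,
      (Nat.gcd q (FF B K J).natAbs : ℝ) / K)) (fun J hJ => by
        refine congrArg _ (sum_congr rfl fun K _ => ?_)
        rw [gcd_sub_right B (mem_Ico.1 hJ).2.le]), mul_sum, mul_sum]
    refine sum_congr rfl fun J _ => ?_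
    rw [mul_div_assoc, sum_div, ← mul_assoc, ← sq]
    refine congrArg _ (sum_congr rfl fun K _ => ?_)
    rw [div_div]
  rw [e1, e2, e3] at h1
  refine le_of_mul_le_mul_right (h1.trans (le_of_eq ?_)) (pow_pos hq0 2)
  ring

/-! ### sums of greatest common divisors -/

theorem gcd_le_sum (q : ℕ) {n : ℕ} (hn : n ≠ 0) :
    (Nat.gcd q n : ℝ) ≤ ∑ e ∈ n.divisors, if e ∣ q then (e : ℝ) else 0 := by
  have h1 := single_le_sum (f := fun e : ℕ => if e ∣ q then (e : ℝ) else 0)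
    (fun e _ => by positivity) (Nat.mem_divisors.2 ⟨Nat.gcd_dvd_right q n, hn⟩)
  simp only [if_pos (Nat.gcd_dvd_left q n)] at h1
  exact h1

theorem sum_gcd (N : ℕ) {n : ℕ} (hn : n ≠ 0) :
    ∑ q ∈ Icc 1 N, (Nat.gcd q n : ℝ) ≤ N * n.divisors.card := by
  calc ∑ q ∈ Icc 1 N, (Nat.gcd q n : ℝ)
      ≤ ∑ q ∈ Icc 1 N, ∑ e ∈ n.divisors, (if e ∣ q then (e : ℝ) else 0) :=
        sum_le_sum fun q _ => gcd_le_sum q hn
    _ = ∑ e ∈ n.divisors, ∑ q ∈ Icc 1 N, (if e ∣ q then (e : ℝ) else 0) := sum_comm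
    _ ≤ ∑ e ∈ n.divisors, (N : ℝ) := by
        refine sum_le_sum fun e he => ?_
        have he0 : 0 < e := Nat.pos_of_mem_divisors he
        rw [← sum_filter, sum_const, nsmul_eq_mul]
        have h1 : (Icc 1 N).filter (fun q => e ∣ q) = (Ioc 0 N).filter (fun q => e ∣ q) := rfl
        rw [h1, Nat.Ioc_filter_dvd_card_eq_div]
        have h2 : N / e * e ≤ N := Nat.div_mul_le_self N e
        exact_mod_cast h2
    _ = N * n.divisors.card := by
        rw [sum_const, nsmul_eq_mul, mul_comm]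

/-- the harmonic sum -/
noncomputable def HH (N : ℕ) : ℝ := ∑ j ∈ Icc 1 N, 1 / (j : ℝ)

theorem sum_gcd_div (N : ℕ) {n : ℕ} (hn : n ≠ 0) :
    ∑ q ∈ Icc 1 N, (Nat.gcd q n : ℝ) / q ≤ n.divisors.card * HH N := by
  calc ∑ q ∈ Icc 1 N, (Nat.gcd q n : ℝ) / q
      ≤ ∑ q ∈ Icc 1 N, ∑ e ∈ n.divisors, (if e ∣ q then (e : ℝ) / q else 0) := by
        refine sum_le_sum fun q hq => ?_
        have h1 := div_le_div_of_nonneg_right (gcd_le_sum q hn) (Nat.cast_nonneg q : (0 : ℝ) ≤ q)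
        refine h1.trans (le_of_eq ?_)
        rw [sum_div]
        refine sum_congr rfl fun e _ => ?_
        split_ifs
        · rfl
        · rw [zero_div]
    _ = ∑ e ∈ n.divisors, ∑ q ∈ Icc 1 N, (if e ∣ q then (e : ℝ) / q else 0) := sum_comm
    _ ≤ ∑ e ∈ n.divisors, HH N := by
        refine sum_le_sum fun e he => ?_
        have he0 : 0 < e := Nat.pos_of_mem_divisors he
        rw [← sum_filter]
        have h2 : ∑ q ∈ (Icc 1 N).filter (fun q => e ∣ q), (e : ℝ) / q =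
            ∑ m ∈ ((Icc 1 N).filter (fun q => e ∣ q)).image (fun q => q / e), 1 / (m : ℝ) := by
          rw [sum_image]
          · refine sum_congr rfl fun q hq => ?_
            obtain ⟨hq1, m, rfl⟩ := mem_filter.1 hq
            have hm : m ≠ 0 := by
              rintro rfl
              rw [mem_Icc] at hq1
              omega
            rw [Nat.mul_div_cancel_left _ he0]
            have : (e : ℝ) ≠ 0 := by positivity
            have : (m : ℝ) ≠ 0 := by exact_mod_cast hm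
            push_cast
            field_simp
          · intro q hq q' hq' h
            obtain ⟨_, m, rfl⟩ := mem_filter.1 (mem_coe.1 hq)
            obtain ⟨_, m', rfl⟩ := mem_filter.1 (mem_coe.1 hq')
            simp only [Nat.mul_div_cancel_left _ he0] at h
            rw [h]
        rw [h2]
        unfold HH
        refine sum_le_sum_of_subset_of_nonneg ?_ (fun m _ _ => by positivity)
        intro m hm
        obtain ⟨q, hq, rfl⟩ := mem_image.1 hm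
        obtain ⟨hq1, hq2⟩ := mem_filter.1 hq
        rw [mem_Icc] at hq1 ⊢
        refine ⟨?_, (Nat.div_le_self _ _).trans hq1.2⟩
        exact Nat.div_pos (Nat.le_of_dvd (by omega) hq2) he0
    _ = n.divisors.card * HH N := by
        rw [sum_const, nsmul_eq_mul]

theorem HH_nonneg (N : ℕ) : 0 ≤ HH N := sum_nonneg fun j _ => by positivity

theorem HH_le (N : ℕ) : HH N ≤ 1 + Real.log N := by
  have h1 := harmonic_le_one_add_log N
  rw [harmonic_eq_sum_Icc] at h1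
  push_cast at h1
  unfold HH
  simpa only [one_div] using h1

theorem seven_pow {q : ℕ} (hq : q ≠ 0) :
    (7 : ℝ) ^ q.primeFactors.card ≤ (q.divisors.card : ℝ) ^ 3 := by
  have h1 : 2 ^ q.primeFactors.card ≤ q.divisors.card := by
    rw [Nat.card_divisors hq]
    refine Finset.pow_card_le_prod _ _ _ fun p hp => ?_
    have h2 : 0 < q.factorization p := Nat.pos_of_ne_zero
      (Finsupp.mem_support_iff.1 (by rwa [Nat.support_factorization]))
    omega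
  have h3 : (2 : ℝ) ^ q.primeFactors.card ≤ q.divisors.card := by exact_mod_cast h1
  calc (7 : ℝ) ^ q.primeFactors.card ≤ 8 ^ q.primeFactors.card :=
        pow_le_pow_left₀ (by norm_num) (by norm_num) _
    _ = (2 ^ q.primeFactors.card) ^ 3 := by
        rw [← pow_mul, mul_comm, pow_mul]
        norm_num
    _ ≤ _ := pow_le_pow_left₀ (by positivity) h3 3

theorem FF_bounds {B J K N : ℕ} (hB : 1 ≤ B) (hJ : J ≤ N) (hK : K ≤ N) (h : 1 ≤ J ∨ 1 ≤ K) :
    (FF B K J).natAbs ≠ 0 ∧ ((FF B K J).natAbs : ℝ) ≤ (1 + 6 * B + B ^ 2) * (N : ℝ) ^ 4 := by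
  have h1 : FF B K J = ((J ^ 4 + 6 * B * K ^ 2 * J ^ 2 + B ^ 2 * K ^ 4 : ℕ) : ℤ) := by
    unfold FF
    push_cast
    ring
  rw [h1, Int.natAbs_natCast]
  constructor
  · rcases h with h | h
    · have : 0 < J ^ 4 := pow_pos h 4
      omega
    · have : 0 < B ^ 2 * K ^ 4 := Nat.mul_pos (pow_pos hB 2) (pow_pos h 4)
      omega
  · have hJ' : (J : ℝ) ≤ N := by exact_mod_cast hJ
    have hK' : (K : ℝ) ≤ N := by exact_mod_cast hK
    push_cast
    calc (J : ℝ) ^ 4 + 6 * B * K ^ 2 * J ^ 2 + B ^ 2 * K ^ 4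
        ≤ (N : ℝ) ^ 4 + 6 * B * N ^ 2 * N ^ 2 + B ^ 2 * N ^ 4 := by gcongr
      _ = _ := by ring

end Pool.Agent.Y333.TC
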